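import Pool.Agent.U180.NG.Stm

/-!
# Project NG, package MEANY: the mean number of points for a fixed vector
-/

set_option autoImplicit false

open MeasureTheory ProbabilityTheory Filter Topology

namespace Pool.Agent.U511.NG

open Pool.Agent.U180.NG

theorem mem_rows {R y : ℝ} {m : ℤ} : m ∈ rows R y ↔ |(m : ℝ) + y| ≤ R := by
  unfold rows
  rw [Finset.mem_Icc, Int.ceil_le, Int.le_floor, abs_le]
  constructor
  · rintro ⟨h1, h2⟩
    constructor <;> linarith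
  · rintro ⟨h1, h2⟩
    constructor <;> linarith

theorem b2_neg (x : ℝ) : b2 (-x) = b2 x := by
  unfold b2
  by_cases hx : Int.fract x = 0
  · have h1 : Int.fract (-x) = 0 := Int.fract_neg_eq_zero.2 hx
    rw [h1, hx]
  · rw [Int.fract_neg hx]
    ring

theorem hl_nonneg (R y : ℝ) (m : ℤ) : 0 ≤ hl R y m := Real.sqrt_nonneg _

theorem hl_le {R : ℝ} (hR : 0 ≤ R) (y : ℝ) (m : ℤ) : hl R y m ≤ R := by
  unfold hl
  refine Real.sqrt_le_iff.2 ⟨hR, ?_⟩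
  nlinarith [sq_nonneg ((m : ℝ) + y)]

theorem row_sum (h3 : S_ROWF) (h4 : S_PHI) {δ R : ℝ} {y : ℝ × ℝ} {B : ℕ} (hδ : 0 < δ) (hδ1 : δ ≤ 1)
    (hR : 1 ≤ R) (hB : R + |y.1| + |y.2| + 2 ≤ B) {m : ℤ} (hm : |(m : ℝ) + y.2| ≤ R) :
    ∑ n ∈ Finset.Icc (-(B : ℤ)) B, phi δ R y (n, m) =
      2 * hl R y.2 m + (b2 (hl R y.2 m + (-y.1 - δ)) - b2 (hl R y.2 m + -y.1) -
        b2 (hl R y.2 m + (y.1 + δ)) + b2 (hl R y.2 m + y.1)) / (2 * δ) := by
  have hr0 := hl_nonneg R y.2 m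
  have hr1 := hl_le (by linarith : (0 : ℝ) ≤ R) y.2 m
  have hy1 := abs_nonneg y.2
  have hy2 := neg_abs_le y.1
  have hy3 := le_abs_self y.1
  have e1 := h3 δ (hl R y.2 m - y.1) B hδ hδ1 (by rw [abs_le]; constructor <;> linarith)
  have e2 := h3 δ (-hl R y.2 m - y.1) B hδ hδ1 (by rw [abs_le]; constructor <;> linarith)
  have e3 : ∀ n ∈ Finset.Icc (-(B : ℤ)) B, phi δ R y (n, m) =
      (clamp δ (hl R y.2 m - y.1 - n) - clamp δ (-hl R y.2 m - y.1 - n)) / δ := fun n _ =>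
    (h4 δ R y (n, m) hδ (by linarith)).2.2.2 hm
  rw [Finset.sum_congr rfl e3, ← Finset.sum_div, Finset.sum_sub_distrib, e1, e2]
  have f1 : b2 (-hl R y.2 m - y.1 - δ) = b2 (hl R y.2 m + (y.1 + δ)) := by
    rw [← b2_neg]; congr 1; ring
  have f2 : b2 (-hl R y.2 m - y.1) = b2 (hl R y.2 m + y.1) := by
    rw [← b2_neg]; congr 1; ring
  have f3 : b2 (hl R y.2 m - y.1 - δ) = b2 (hl R y.2 m + (-y.1 - δ)) := by
    congr 1; ring
  have f4 : b2 (hl R y.2 m - y.1) = b2 (hl R y.2 m + -y.1) := by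
    congr 1
  rw [f1, f2, f3, f4]
  field_simp
  ring

/-- **MEANY**: the mean number of points, for a fixed vector `y`. -/
theorem t_MEANY (h1 : S_B2) (h2 : S_EM) (h3 : S_ROWF) (h4 : S_PHI) : S_MEANY := by
  obtain ⟨C1, hC1, h1⟩ := h1
  obtain ⟨C2, hC2, h2⟩ := h2
  refine ⟨C2 + 2 * C1, by linarith, ?_⟩
  intro δ R y B hδ hδ1 hR hB
  have hR0 : (0 : ℝ) ≤ R := by linarith
  have hy0 := abs_nonneg y.1
  have hsub : rows R y.2 ⊆ Finset.Icc (-(B : ℤ)) B := by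
    intro m hm
    rw [mem_rows, abs_le] at hm
    have a1 := neg_abs_le y.2
    have a2 := le_abs_self y.2
    rw [Finset.mem_Icc]
    constructor
    · have : (-(B : ℝ)) ≤ m := by linarith [hm.1]
      exact_mod_cast this
    · have : (m : ℝ) ≤ B := by linarith [hm.2]
      exact_mod_cast this
  have e1 : ∑ z ∈ box B, phi δ R y z = ∑ m ∈ rows R y.2, (2 * hl R y.2 m +
      (b2 (hl R y.2 m + (-y.1 - δ)) - b2 (hl R y.2 m + -y.1) -
        b2 (hl R y.2 m + (y.1 + δ)) + b2 (hl R y.2 m + y.1)) / (2 * δ)) := by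
    unfold box
    rw [Finset.sum_product_right, ← Finset.sum_subset hsub]
    · exact Finset.sum_congr rfl fun m hm => row_sum h3 h4 hδ hδ1 hR hB (mem_rows.1 hm)
    · intro m _ hm
      refine Finset.sum_eq_zero fun n _ => ?_
      refine (h4 δ R y (n, m) hδ hR0).2.2.1 ?_
      rw [mem_rows, not_le] at hm
      exact hm
  have e2 : ∑ z ∈ box B, phi δ R y z = ∑ m ∈ rows R y.2, 2 * hl R y.2 m +
      (∑ m ∈ rows R y.2, b2 (hl R y.2 m + (-y.1 - δ)) - ∑ m ∈ rows R y.2, b2 (hl R y.2 m + -y.1) -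
        ∑ m ∈ rows R y.2, b2 (hl R y.2 m + (y.1 + δ)) + ∑ m ∈ rows R y.2, b2 (hl R y.2 m + y.1)) /
          (2 * δ) := by
    rw [e1, Finset.sum_add_distrib, ← Finset.sum_div, Finset.sum_add_distrib, Finset.sum_sub_distrib,
      Finset.sum_sub_distrib]
  rw [e2]
  have g0 := abs_le.1 (h2 R y.2 hR)
  have g1 := abs_le.1 (h1 R y.2 (-y.1 - δ) hR)
  have g2 := abs_le.1 (h1 R y.2 (-y.1) hR)
  have g3 := abs_le.1 (h1 R y.2 (y.1 + δ) hR)
  have g4 := abs_le.1 (h1 R y.2 y.1 hR)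
  set a0 := ∑ m ∈ rows R y.2, 2 * hl R y.2 m
  set a1 := ∑ m ∈ rows R y.2, b2 (hl R y.2 m + (-y.1 - δ))
  set a2 := ∑ m ∈ rows R y.2, b2 (hl R y.2 m + -y.1)
  set a3 := ∑ m ∈ rows R y.2, b2 (hl R y.2 m + (y.1 + δ))
  set a4 := ∑ m ∈ rows R y.2, b2 (hl R y.2 m + y.1)
  have hs : 0 ≤ Real.sqrt R := Real.sqrt_nonneg R
  set s := Real.sqrt R
  have k1 : |a0 - Real.pi * R ^ 2| ≤ C2 * s / δ := by
    refine (abs_le.2 g0).trans ?_
    rw [le_div_iff₀ hδ]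
    have : 0 ≤ C2 * s := by positivity
    nlinarith
  have k2 : |(a1 - a2 - a3 + a4) / (2 * δ)| ≤ 2 * C1 * s / δ := by
    rw [abs_div, abs_of_pos (by positivity : (0 : ℝ) < 2 * δ), div_le_div_iff₀ (by positivity) hδ]
    have : |a1 - a2 - a3 + a4| ≤ 4 * (C1 * s) := by
      rw [abs_le]
      constructor <;> linarith [g1.1, g1.2, g2.1, g2.2, g3.1, g3.2, g4.1, g4.2]
    nlinarith
  calc |a0 + (a1 - a2 - a3 + a4) / (2 * δ) - Real.pi * R ^ 2| =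
        |(a0 - Real.pi * R ^ 2) + (a1 - a2 - a3 + a4) / (2 * δ)| := by congr 1; ring
    _ ≤ |a0 - Real.pi * R ^ 2| + |(a1 - a2 - a3 + a4) / (2 * δ)| := abs_add_le _ _
    _ ≤ C2 * s / δ + 2 * C1 * s / δ := add_le_add k1 k2
    _ = (C2 + 2 * C1) * s / δ := by ring

end Pool.Agent.U511.NG
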